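import Mathlib
import Pool.Agent.Q236.TriMu

/-!
# MP_175962_nt: the series of triangular Möbius values over triangular numbers converges

`tri i = i (i + 1) / 2`; the order is `i ≼ j ↔ tri i ∣ tri j`; `IsTriMobius μ` says that `μ` is the
Möbius function of this poset taken from the bottom element `1`. We show that `∑ μ(i)/tri(i)`
converges (even absolutely) to a finite real limit, and that `μ(n) = O(n ^ ε)` for every `ε > 0`.
-/

namespace Pool.Agent.Results.MP_175962_nt.TriangularMobiusSeriesConverges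

open Finset Filter Topology

/-- The `i`-th triangular number. -/
def tri (i : ℕ) : ℕ := i * (i + 1) / 2

/-- `μ` is the Möbius function `μ(1, ·)` of the divisibility order `d ≼ n ↔ tri d ∣ tri n` on the
positive integers: `μ 1 = 1` and `∑_{d ≼ n} μ d = 0` for every `n ≥ 2`. -/
def IsTriMobius (μ : ℕ → ℤ) : Prop :=
  μ 1 = 1 ∧ ∀ n : ℕ, 2 ≤ n → ∑ d ∈ (Icc 1 n).filter (fun d => tri d ∣ tri n), μ d = 0

lemma two_mul_tri (i : ℕ) : 2 * tri i = i * (i + 1) :=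
  Nat.mul_div_cancel' (Nat.even_mul_succ_self i).two_dvd

lemma tri_dvd_iff (i j : ℕ) : tri i ∣ tri j ↔ i * (i + 1) ∣ j * (j + 1) := by
  rw [← two_mul_tri, ← two_mul_tri]
  exact (Nat.mul_dvd_mul_iff_left (by norm_num)).symm

lemma filter_eq {n : ℕ} (hn : 1 ≤ n) :
    (Icc 1 n).filter (fun d => tri d ∣ tri n) = insert n (Q236.TriMu.P n) := by
  ext d
  rw [mem_filter, mem_Icc, mem_insert, Q236.TriMu.mem_P, tri_dvd_iff]
  constructor
  · rintro ⟨⟨h1, h2⟩, h3⟩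
    rcases Nat.eq_or_lt_of_le h2 with h4 | h4
    · exact Or.inl h4
    · exact Or.inr ⟨⟨h1, h4⟩, h3⟩
  · rintro (rfl | ⟨⟨h1, h2⟩, h3⟩)
    · exact ⟨⟨hn, le_rfl⟩, dvd_rfl⟩
    · exact ⟨⟨h1, h2.le⟩, h3⟩

lemma sum_eq {n : ℕ} (hn : 1 ≤ n) (μ : ℕ → ℤ) :
    ∑ d ∈ (Icc 1 n).filter (fun d => tri d ∣ tri n), μ d
      = μ n + ∑ d ∈ Q236.TriMu.P n, μ d := by
  rw [filter_eq hn, sum_insert]
  intro h
  exact lt_irrefl _ (Q236.TriMu.mem_P.mp h).1.2

/-- the Möbius function by recursion -/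
def mob (n : ℕ) : ℤ :=
  if n ≤ 1 then 1 else - ∑ d ∈ (Q236.TriMu.P n).attach,
    have : d.1 < n := (Q236.TriMu.mem_P.mp d.2).1.2
    mob d.1
termination_by n

lemma isTriMobius_mob : IsTriMobius mob := by
  constructor
  · rw [mob]
    simp
  · intro n hn
    rw [sum_eq (by omega)]
    have h1 : mob n = - ∑ d ∈ Q236.TriMu.P n, mob d := by
      rw [mob, if_neg (by omega)]
      rw [← Finset.sum_attach (Q236.TriMu.P n)]
    rw [h1]
    ring

lemma bound {μ : ℕ → ℤ} (hμ : IsTriMobius μ) {a : ℝ} (ha : 0 < a) :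
    ∃ A : ℝ, 0 ≤ A ∧ ∀ n : ℕ, 1 ≤ n → |(μ n : ℝ)| ≤ A * (n : ℝ) ^ a := by
  apply Q236.TriMu.growth (fun n => |(μ n : ℝ)|) (fun n => abs_nonneg _) _ ha
  intro n hn
  have h1 := hμ.2 n hn
  rw [sum_eq (by omega)] at h1
  have h2 : μ n = - ∑ d ∈ Q236.TriMu.P n, μ d := by linarith
  have h3 : (μ n : ℝ) = - ∑ d ∈ Q236.TriMu.P n, (μ d : ℝ) := by
    rw [h2]
    push_cast
    rfl
  show |(μ n : ℝ)| ≤ _
  rw [h3, abs_neg]
  exact Finset.abs_sum_le_sum_abs _ _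

lemma summable {μ : ℕ → ℤ} (hμ : IsTriMobius μ) :
    Summable (fun i : ℕ => |(μ i : ℝ) / (tri i : ℝ)|) := by
  obtain ⟨A, hA, hb⟩ := bound hμ (a := 1 / 2) (by norm_num)
  have hs : Summable (fun n : ℕ => (2 * A) * (n : ℝ) ^ (-(3 / 2) : ℝ)) :=
    (Real.summable_nat_rpow.mpr (by norm_num)).mul_left _
  refine Summable.of_nonneg_of_le (fun i => abs_nonneg _) (fun i => ?_) hs
  rcases Nat.eq_zero_or_pos i with rfl | hi
  · simp [tri]
  · have h1 := hb i hi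
    have h2 : (2:ℝ) * (tri i : ℝ) = i * (i + 1) := by exact_mod_cast two_mul_tri i
    have hir : (1:ℝ) ≤ (i : ℝ) := by exact_mod_cast hi
    have h3 : (0:ℝ) < (tri i : ℝ) := by nlinarith
    rw [abs_div, abs_of_pos h3, div_le_iff₀ h3]
    have h4 : (i : ℝ) ^ (1 / 2 : ℝ) = (i : ℝ) ^ (-(3 / 2) : ℝ) * (i * i) := by
      have : (i : ℝ) * i = (i : ℝ) ^ (2 : ℝ) := by
        rw [Real.rpow_two]
        ring
      rw [this, ← Real.rpow_add (by linarith)]
      norm_num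
    refine le_trans h1 ?_
    rw [h4]
    have h5 : (0:ℝ) ≤ (i : ℝ) ^ (-(3 / 2) : ℝ) := by positivity
    have h6 : (i : ℝ) * i ≤ 2 * (tri i : ℝ) := by rw [h2]; nlinarith
    calc A * ((i : ℝ) ^ (-(3 / 2) : ℝ) * (i * i))
        ≤ A * ((i : ℝ) ^ (-(3 / 2) : ℝ) * (2 * (tri i : ℝ))) := by
          apply mul_le_mul_of_nonneg_left _ hA
          exact mul_le_mul_of_nonneg_left h6 h5
      _ = _ := by ring

/-- **The series `∑ μ_T(i) / T(i)` converges.** There is a function `μ` with the defining property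
of the Möbius function of the divisibility order on triangular numbers, and for every such `μ` the
partial sums `∑_{1 ≤ i ≤ n} μ(i) / T(i)` tend to a finite real limit, the series converges
absolutely, and `|μ(n)| ≤ A n ^ ε` for every `ε > 0` with a constant `A` depending on `ε`. -/
theorem result :
    (∃ μ : ℕ → ℤ, IsTriMobius μ) ∧
    ∀ μ : ℕ → ℤ, IsTriMobius μ →
      (∃ D : ℝ, Tendsto (fun n : ℕ => ∑ i ∈ Icc 1 n, (μ i : ℝ) / (tri i : ℝ)) atTop (𝓝 D)) ∧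
      Summable (fun i : ℕ => |(μ i : ℝ) / (tri i : ℝ)|) ∧
      ∀ ε : ℝ, 0 < ε → ∃ A : ℝ, ∀ n : ℕ, 1 ≤ n → |(μ n : ℝ)| ≤ A * (n : ℝ) ^ ε := by
  refine ⟨⟨mob, isTriMobius_mob⟩, fun μ hμ => ⟨?_, summable hμ, ?_⟩⟩
  · have hs : Summable (fun i : ℕ => (μ i : ℝ) / (tri i : ℝ)) := (summable hμ).of_abs
    obtain ⟨D, hD⟩ := hs
    refine ⟨D, ?_⟩
    have h1 := (tendsto_add_atTop_iff_nat 1).mpr hD.tendsto_sum_nat
    refine h1.congr (fun n => ?_)
    rw [Finset.sum_range_succ']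
    have h0 : (μ 0 : ℝ) / (tri 0 : ℝ) = 0 := by simp [tri]
    rw [h0, add_zero, Finset.range_eq_Ico, Finset.sum_Ico_add' (fun i => (μ i : ℝ) / (tri i : ℝ))]
    rfl
  · intro ε hε
    obtain ⟨A, _, hA⟩ := bound hμ hε
    exact ⟨A, hA⟩

end Pool.Agent.Results.MP_175962_nt.TriangularMobiusSeriesConverges
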